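import Pool.Agent.W377.PG.Pos
import Pool.Agent.W101.PG.Hk

/-!
# Project PG (helper544), part G0: Hodge substructures are stable under `so(T)`
-/

open Matrix Finset Module

namespace Pool.Agent.W377.PG

open Pool.Agent.W544.PG

noncomputable section

variable {n k : ℕ}

/-! ### The Weil operator preserves substructures -/

/-- projections on the eigenspaces of `x` -/
def ee (T : HS n) : Fin 3 → Matrix (Fin n) (Fin n) ℂ :=
  ![(1 / 2 : ℂ) • (T.x * T.x - T.x), 1 - T.x * T.x, (1 / 2 : ℂ) • (T.x * T.x + T.x)]

lemma ee_sum (T : HS n) : ∑ r, ee T r = 1 := by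
  rw [Fin.sum_univ_three]
  simp only [ee, Matrix.cons_val_zero, Matrix.cons_val_one, Matrix.cons_val]
  module

lemma ee_x (T : HS n) (r : Fin 3) : ee T r * T.x = ((r : ℂ) - 1) • ee T r := by
  fin_cases r
  · simp only [ee, Fin.zero_eta, Matrix.cons_val_zero, Nat.cast_zero, zero_sub]
    rw [smul_mul_assoc, sub_mul, T.cube]
    module
  · simp [ee, sub_mul, T.cube]
  · simp only [ee, Fin.reduceFinMk, Matrix.cons_val]
    rw [smul_mul_assoc, add_mul, T.cube]
    norm_num
    module

lemma ee_CC (T : HS n) (r : Fin 3) : ee T r * CC T = ((-1 : ℂ) ^ (r : ℕ)) • ee T r := by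
  have h4 : T.x * T.x * (T.x * T.x) = T.x * T.x := by rw [← mul_assoc, T.cube]
  have h3 : T.x * (T.x * T.x) = T.x := by rw [← mul_assoc, T.cube]
  unfold CC
  fin_cases r
  · simp only [ee, Fin.zero_eta, Matrix.cons_val_zero, pow_zero]
    rw [smul_mul_assoc, mul_sub, sub_mul, mul_smul_comm, mul_smul_comm, h4, h3, mul_one]
    module
  · simp only [ee, Fin.mk_one, Matrix.cons_val_one, Matrix.cons_val_zero, pow_one]
    simp only [mul_sub, sub_mul, mul_smul_comm, h4, mul_one, one_mul]
    module
  · simp only [ee, Fin.reduceFinMk, Matrix.cons_val]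
    rw [smul_mul_assoc, mul_sub, add_mul, mul_smul_comm, mul_smul_comm, h4, h3, mul_one]
    norm_num
    module

lemma ee_dec (T : HS n) (s : V n k) :
    ∑ c : Fin k → Fin 3, mp (fun j => ee T (c j)) s = s := by
  rw [← mp_sum (fun _ r => ee T r), ee_sum, mp_one]

lemma ee_act (T : HS n) (c : Fin k → Fin 3) (s : V n k) :
    actL T.x (mp (fun j => ee T (c j)) s) =
      (((∑ j, (c j : ℕ) : ℕ) : ℂ) - k) • mp (fun j => ee T (c j)) s := by
  rw [act_mp]
  have h : ∀ j, mp (Function.update (fun j => ee T (c j)) j (ee T (c j) * T.x)) s =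
      (((c j : ℕ) : ℂ) - 1) • mp (fun j => ee T (c j)) s := by
    intro j
    have h1 : Function.update (fun j => ee T (c j)) j (ee T (c j) * T.x) =
        fun i => (Function.update (fun _ => (1 : ℂ)) j (((c j : ℕ) : ℂ) - 1) i) • ee T (c i) := by
      funext i
      by_cases hi : i = j
      · subst hi
        rw [Function.update_self, Function.update_self, ee_x]
      · rw [Function.update_of_ne hi, Function.update_of_ne hi, one_smul]
    rw [h1, mp_smul, prod_update_of_mem (mem_univ j)]
    simp
  rw [sum_congr rfl fun j _ => h j, ← sum_smul, sum_sub_distrib]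
  simp

lemma ee_pull (T : HS n) (c : Fin k → Fin 3) (s : V n k) :
    mp (fun _ => CC T) (mp (fun j => ee T (c j)) s) =
      ((-1 : ℂ) ^ (∑ j, (c j : ℕ))) • mp (fun j => ee T (c j)) s := by
  rw [mp_mp]
  simp only [ee_CC]
  rw [mp_smul, prod_pow_eq_pow_sum]

/-- the Weil operator preserves invariant subspaces -/
lemma CC_mem (T : HS n) (W : Submodule ℂ (V n k)) (hW : ∀ w ∈ W, actL T.x w ∈ W) :
    ∀ w ∈ W, mp (fun _ => CC T) w ∈ W := by
  intro w hw
  set f : ℕ → V n k := fun N => ∑ c : Fin k → Fin 3 with ∑ j, (c j : ℕ) = N,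
    mp (fun j => ee T (c j)) w with hf
  have hsum : ∑ N ∈ range (2 * k + 1), f N = w := by
    rw [hf, sum_fiberwise_of_maps_to, ee_dec]
    intro c _
    rw [mem_range]
    have : ∑ j, (c j : ℕ) ≤ ∑ j : Fin k, 2 := sum_le_sum fun j _ => by omega
    simp at this
    omega
  have hact : ∀ N, actL T.x (f N) = ((N : ℂ) - k) • f N := by
    intro N
    simp only [hf]
    rw [map_sum, smul_sum]
    refine sum_congr rfl fun c hc => ?_
    rw [ee_act, (mem_filter.1 hc).2]
  have hpull : ∀ N, mp (fun _ => CC T) (f N) = ((-1 : ℂ) ^ N) • f N := by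
    intro N
    simp only [hf]
    rw [map_sum, smul_sum]
    refine sum_congr rfl fun c hc => ?_
    rw [ee_pull, (mem_filter.1 hc).2]
  have hmem := eig_mem (actL T.x) W hW (range (2 * k + 1)) (fun N => (N : ℂ) - k)
    (fun a b h => by
      have : (a : ℂ) = b := by simpa using h
      exact_mod_cast this) f hact (by rw [hsum]; exact hw)
  rw [← hsum, map_sum]
  refine W.sum_mem fun N hN => ?_
  rw [hpull]
  exact W.smul_mem _ (hmem N hN)

/-! ### Rational forms -/

lemma cx_mem (W : Submodule ℚ ((Fin k → Fin n) → ℚ)) {t : (Fin k → Fin n) → ℚ} (ht : t ∈ W) :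
    cx t ∈ cspan W := Submodule.subset_span ⟨t, ht, rfl⟩

lemma cj_mem (W : Submodule ℚ ((Fin k → Fin n) → ℚ)) (w : V n k) (hw : w ∈ cspan W) :
    cj w ∈ cspan W := by
  unfold cspan at hw
  induction hw using Submodule.span_induction with
  | mem x h =>
    obtain ⟨t, ht, rfl⟩ := h
    have : cj (cx t) = cx t := by
      funext J
      simp [cj, cx]
    rw [this]
    exact cx_mem W ht
  | zero =>
    have : cj (0 : V n k) = 0 := by
      funext J
      simp [cj]
    rw [this]
    exact Submodule.zero_mem _
  | add x y _ _ hx hy =>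
    have : cj (x + y) = cj x + cj y := by
      funext J
      simp [cj]
    rw [this]
    exact Submodule.add_mem _ hx hy
  | smul a x _ hx =>
    have : cj (a • x) = (starRingEnd ℂ a) • cj x := by
      funext J
      simp [cj]
    rw [this]
    exact Submodule.smul_mem _ _ hx

lemma bt_add_left (T : HS n) (s s' t : V n k) : bt T (s + s') t = bt T s t + bt T s' t := by
  simp [bt, add_mul, sum_add_distrib]

lemma bt_smul_left (T : HS n) (a : ℂ) (s t : V n k) : bt T (a • s) t = a * bt T s t := by
  simp [bt, mul_sum, mul_assoc]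

lemma bt_zero_left (T : HS n) (t : V n k) : bt T 0 t = 0 := by simp [bt]

/-- the form is nondegenerate on a substructure -/
lemma nondeg (T : HS n) (W : Submodule ℚ ((Fin k → Fin n) → ℚ)) (hW : T.IsSub W) (u : V n k)
    (hu : u ∈ cspan W) (h : ∀ w ∈ cspan W, bt T w u = 0) : u = 0 := by
  apply bt_pos T
  have h1 : ∀ w ∈ cspan W, bt T w (cj u) = 0 := by
    intro w hw
    have h2 := bt_cj T (cj w) u
    rw [cj_cj, h _ (cj_mem W w hw), map_zero] at h2
    exact h2.symm
  rw [bt_symm]
  exact h1 _ (CC_mem T (cspan W) hW u hu)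

/-- the rational form on rational forms -/
def bq (T : HS n) : LinearMap.BilinForm ℚ ((Fin k → Fin n) → ℚ) :=
  LinearMap.mk₂ ℚ (fun s t => ∑ J, ∑ K : Fin k → Fin n, s J * ((∏ j, T.Q⁻¹ (K j) (J j)) * t K))
    (by intro s s' t; simp only [Pi.add_apply, add_mul, sum_add_distrib])
    (by intro c s t; simp only [Pi.smul_apply, smul_eq_mul, mul_sum, mul_assoc])
    (by intro s t t'; simp only [Pi.add_apply, mul_add, sum_add_distrib])
    (by
      intro c s t
      simp only [Pi.smul_apply, smul_eq_mul, mul_sum]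
      exact sum_congr rfl fun J _ => sum_congr rfl fun K _ => by ring)

lemma bq_cast (T : HS n) (s t : (Fin k → Fin n) → ℚ) : ((bq T s t : ℚ) : ℂ) = bt T (cx s) (cx t) := by
  simp only [bq, LinearMap.mk₂_apply, bt, mp_apply, cx, Qi, mC, Matrix.map_apply, mul_sum]
  push_cast
  rfl

/-- orthogonal rational projection -/
lemma exists_proj (T : HS n) (W : Submodule ℚ ((Fin k → Fin n) → ℚ)) (hW : T.IsSub W) :
    ∃ π : ((Fin k → Fin n) → ℚ) →ₗ[ℚ] ((Fin k → Fin n) → ℚ), (∀ s, π s ∈ W) ∧ (∀ s ∈ W, π s = s) ∧
      ∀ s, ∀ w ∈ W, bt T (cx w) (cx (s - π s)) = 0 := by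
  have hsymm : ∀ s t : (Fin k → Fin n) → ℚ, bq T s t = bq T t s := by
    intro s t
    have : ((bq T s t : ℚ) : ℂ) = ((bq T t s : ℚ) : ℂ) := by rw [bq_cast, bq_cast, bt_symm]
    exact_mod_cast this
  have hrefl : (bq T : LinearMap.BilinForm ℚ ((Fin k → Fin n) → ℚ)).IsRefl := by
    intro s t h
    rw [hsymm]; exact h
  have hdisj : Disjoint W ((bq T).orthogonal W) := by
    rw [Submodule.disjoint_def]
    intro u hu hu'
    have h1 : cx u = 0 := by
      apply nondeg T W hW _ (cx_mem W hu)
      intro w hw
      unfold cspan at hw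
      induction hw using Submodule.span_induction with
      | mem x h =>
        obtain ⟨t, ht, rfl⟩ := h
        rw [← bq_cast]
        have := (LinearMap.BilinForm.mem_orthogonal_iff.1 hu') t ht
        have h3 : bq T t u = 0 := this
        rw [h3, Rat.cast_zero]
      | zero => exact bt_zero_left T _
      | add x y _ _ hx hy => rw [bt_add_left, hx, hy, add_zero]
      | smul a x _ hx => rw [bt_smul_left, hx, mul_zero]
    funext J
    have := congrFun h1 J
    simpa [cx] using this
  have hcompl := LinearMap.BilinForm.isCompl_orthogonal_of_restrict_nondegenerate hrefl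
    (LinearMap.BilinForm.nondegenerate_restrict_of_disjoint_orthogonal _ hrefl hdisj)
  refine ⟨W.projection _ hcompl, fun s => Submodule.projection_apply_mem hcompl s,
    fun s hs => Submodule.projection_apply_of_mem_left hcompl hs, fun s w hw => ?_⟩
  rw [← bq_cast]
  have h := (LinearMap.BilinForm.mem_orthogonal_iff.1 (Submodule.sub_projection_mem hcompl s)) w hw
  have h3 : bq T w (s - W.projection _ hcompl s) = 0 := h
  rw [h3, Rat.cast_zero]

/-- complexification of an operator on rational forms -/
def pc (π : ((Fin k → Fin n) → ℚ) →ₗ[ℚ] ((Fin k → Fin n) → ℚ)) : V n k →ₗ[ℂ] V n k where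
  toFun s := ∑ J, s J • cx (π (Pi.single J 1))
  map_add' s t := by simp only [Pi.add_apply, add_smul, sum_add_distrib]
  map_smul' c s := by simp only [Pi.smul_apply, smul_eq_mul, RingHom.id_apply, smul_sum, mul_smul]

lemma pc_apply (π : ((Fin k → Fin n) → ℚ) →ₗ[ℚ] ((Fin k → Fin n) → ℚ)) (s : V n k) :
    pc π s = ∑ J, s J • cx (π (Pi.single J 1)) := rfl

lemma pc_cx (π : ((Fin k → Fin n) → ℚ) →ₗ[ℚ] ((Fin k → Fin n) → ℚ)) (t : (Fin k → Fin n) → ℚ) :
    pc π (cx t) = cx (π t) := by
  have h : t = ∑ J, t J • (Pi.single J 1 : (Fin k → Fin n) → ℚ) := by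
    funext K
    simp [Finset.sum_apply, Pi.single_apply]
  conv_rhs => rw [h, map_sum]
  funext K
  rw [pc_apply]
  simp only [cx, Finset.sum_apply, Pi.smul_apply, smul_eq_mul, map_smul]
  push_cast
  rfl

/-! ### The invariant form -/

lemma bt_zero_right (T : HS n) (s : V n k) : bt T s 0 = 0 := by rw [bt_symm, bt_zero_left]

lemma bt_add_right (T : HS n) (s t t' : V n k) : bt T s (t + t') = bt T s t + bt T s t' := by
  rw [bt_symm, bt_add_left, bt_symm T t, bt_symm T t']

lemma bt_smul_right (T : HS n) (a : ℂ) (s t : V n k) : bt T s (a • t) = a * bt T s t := by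
  rw [bt_symm, bt_smul_left, bt_symm]

lemma bt_sum_right (T : HS n) {β : Type} (S : Finset β) (s : V n k) (t : β → V n k) :
    bt T s (∑ b ∈ S, t b) = ∑ b ∈ S, bt T s (t b) := by
  classical
  induction S using Finset.induction_on with
  | empty => simp [bt_zero_right]
  | insert a S ha ih => rw [sum_insert ha, sum_insert ha, bt_add_right, ih]

/-- products of `Q` with frozen first variables -/
def sJ (T : HS n) (J : Fin k → Fin n) : (Fin k → Fin n) → ℚ := fun K => ∏ j, T.Q (J j) (K j)

lemma sJ_skew (T : HS n) (Z : Matrix (Fin n) (Fin n) ℂ) (hZ : Zᵀ * mC T.Q + mC T.Q * Z = 0)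
    (J : Fin k → Fin n) :
    ∑ j, ∑ l, Z l (J j) • cx (sJ T (Function.update J j l)) = -actL Z (cx (sJ T J)) := by
  funext K
  have h1 : ∀ j l, cx (sJ T (Function.update J j l)) K =
      (T.Q l (K j) : ℂ) * ∏ i ∈ univ.erase j, (T.Q (J i) (K i) : ℂ) := by
    intro j l
    have := prod_upd (fun i m => (T.Q m (K i) : ℂ)) J j l
    rw [← this]
    simp [cx, sJ]
  have h2 : ∀ j l, cx (sJ T J) (Function.update K j l) =
      (T.Q (J j) l : ℂ) * ∏ i ∈ univ.erase j, (T.Q (J i) (K i) : ℂ) := by
    intro j l
    have := prod_upd (fun i m => (T.Q (J i) m : ℂ)) K j l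
    rw [← this]
    simp [cx, sJ]
  rw [Pi.neg_apply, actL_apply]
  unfold act
  simp only [Finset.sum_apply, Pi.smul_apply, smul_eq_mul, h1, h2]
  rw [← sum_neg_distrib]
  refine sum_congr rfl fun j _ => ?_
  have h3 := congrFun (congrFun hZ (J j)) (K j)
  simp only [Matrix.add_apply, mul_apply, transpose_apply, mC, Matrix.map_apply,
    Matrix.zero_apply] at h3
  have h4 := eq_neg_of_add_eq_zero_left h3
  simp only [← mul_assoc, ← sum_mul]
  rw [h4, neg_mul]
  congr 2
  exact sum_congr rfl fun l _ => mul_comm _ _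

/-- the form of degree `2k` given by an operator -/
def ff (T : HS n) (π : ((Fin k → Fin n) → ℚ) →ₗ[ℚ] ((Fin k → Fin n) → ℚ)) :
    (Fin (k + k) → Fin n) → ℚ :=
  fun L => π (sJ T (fun i => L (Fin.castAdd k i))) (fun i => L (Fin.natAdd k i))

lemma ff_key (T : HS n) (π : ((Fin k → Fin n) → ℚ) →ₗ[ℚ] ((Fin k → Fin n) → ℚ))
    (Z : Matrix (Fin n) (Fin n) ℂ) (hZ : Zᵀ * mC T.Q + mC T.Q * Z = 0) (J K : Fin k → Fin n)
    (L : Fin (k + k) → Fin n) (hJ : ∀ i, L (Fin.castAdd k i) = J i)
    (hK : ∀ i, L (Fin.natAdd k i) = K i) :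
    ∑ j, ∑ l, Z l (L j) * (ff T π (Function.update L j l) : ℂ) =
      actL Z (pc π (cx (sJ T J))) K - pc π (actL Z (cx (sJ T J))) K := by
  rw [Fin.sum_univ_add, sub_eq_add_neg, add_comm]
  congr 1
  · rw [actL_apply, pc_cx]
    unfold act
    refine sum_congr rfl fun j _ => sum_congr rfl fun l _ => ?_
    rw [hK]
    congr 1
    unfold ff cx
    have h1 : (fun i => Function.update L (Fin.natAdd k j) l (Fin.castAdd k i)) = J := by
      funext i
      rw [Function.update_of_ne, hJ]
      intro h
      have := congrArg Fin.val h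
      simp at this
      omega
    have h2 : (fun i => Function.update L (Fin.natAdd k j) l (Fin.natAdd k i)) =
        Function.update K j l := by
      funext i
      by_cases hi : i = j
      · subst hi
        rw [Function.update_self, Function.update_self]
      · rw [Function.update_of_ne hi, Function.update_of_ne, hK]
        intro h
        exact hi ((Fin.natAdd_injective k k) h)
    rw [h1, h2]
  · have h0 : -pc π (actL Z (cx (sJ T J))) K = pc π (-actL Z (cx (sJ T J))) K := by
      rw [map_neg]; rfl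
    rw [h0, ← sJ_skew T Z hZ, map_sum, Finset.sum_apply]
    refine sum_congr rfl fun j _ => ?_
    rw [map_sum, Finset.sum_apply]
    refine sum_congr rfl fun l _ => ?_
    rw [map_smul, pc_cx, Pi.smul_apply, smul_eq_mul, hJ]
    congr 1
    unfold ff cx
    have h1 : (fun i => Function.update L (Fin.castAdd k j) l (Fin.natAdd k i)) = K := by
      funext i
      rw [Function.update_of_ne, hK]
      intro h
      have := congrArg Fin.val h
      simp at this
      omega
    have h2 : (fun i => Function.update L (Fin.castAdd k j) l (Fin.castAdd k i)) =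
        Function.update J j l := by
      funext i
      by_cases hi : i = j
      · subst hi
        rw [Function.update_self, Function.update_self]
      · rw [Function.update_of_ne hi, Function.update_of_ne, hJ]
        intro h
        exact hi ((Fin.castAdd_injective k k) h)
    rw [h1, h2]

theorem g0 : S_g0 := by
  intro n k T hT W hW Z hZ w hw
  obtain ⟨π, hπ1, hπ2, hπ3⟩ := exists_proj T W hW
  have hr : ∀ s : V n k, pc π s ∈ cspan W := fun s =>
    Submodule.sum_mem _ fun J _ => Submodule.smul_mem _ _ (cx_mem W (hπ1 _))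
  have hid : ∀ s ∈ cspan W, pc π s = s := by
    intro s hs
    unfold cspan at hs
    induction hs using Submodule.span_induction with
    | mem x h =>
      obtain ⟨t, ht, rfl⟩ := h
      rw [pc_cx, hπ2 t ht]
    | zero => exact map_zero _
    | add x y _ _ hx hy => rw [map_add, hx, hy]
    | smul a x _ hx => rw [map_smul, hx]
  have horth : ∀ (s : V n k), ∀ w ∈ cspan W, bt T w (s - pc π s) = 0 := by
    intro s w hw
    have h1 : s - pc π s = ∑ J, s J • cx (Pi.single J 1 - π (Pi.single J 1)) := by
      have h2 : ∑ J, s J • cx (Pi.single J 1 : (Fin k → Fin n) → ℚ) = s := by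
        funext K
        rw [Finset.sum_apply, sum_eq_single K]
        · simp [cx]
        · intro J _ hJ
          simp [cx, Ne.symm hJ]
        · intro h
          exact absurd (mem_univ K) h
      calc s - pc π s = ∑ J, s J • cx (Pi.single J 1 : (Fin k → Fin n) → ℚ) -
            ∑ J, s J • cx (π (Pi.single J 1)) := by rw [h2, pc_apply]
        _ = _ := by
          rw [← sum_sub_distrib]
          refine sum_congr rfl fun J _ => ?_
          rw [← smul_sub]
          congr 1
          funext K
          simp [cx]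
    rw [h1, bt_sum_right]
    refine sum_eq_zero fun J _ => ?_
    rw [bt_smul_right]
    have h3 : ∀ w ∈ cspan W, bt T w (cx (Pi.single J 1 - π (Pi.single J 1))) = 0 := by
      intro w hw
      unfold cspan at hw
      induction hw using Submodule.span_induction with
      | mem x h =>
        obtain ⟨t, ht, rfl⟩ := h
        exact hπ3 _ t ht
      | zero => exact bt_zero_left T _
      | add x y _ _ hx hy => rw [bt_add_left, hx, hy, add_zero]
      | smul a x _ hx => rw [bt_smul_left, hx, mul_zero]
    rw [h3 w hw, mul_zero]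
  have hx : T.xᵀ * mC T.Q + mC T.Q * T.x = 0 := T.skew
  have hcomm : ∀ s : V n k, actL T.x (pc π s) = pc π (actL T.x s) := by
    intro s
    have h1 : pc π (actL T.x (s - pc π s)) = 0 := by
      apply nondeg T W hW _ (hr _)
      intro w hw
      have h2 := horth (actL T.x (s - pc π s)) w hw
      have h3 : bt T w (actL T.x (s - pc π s)) = 0 := by
        have h4 := bt_act T T.x hx w (s - pc π s)
        have h6 : bt T (actL T.x w) (s - pc π s) = 0 := horth s _ (hW w hw)
        rw [h6] at h4
        exact neg_eq_zero.1 h4.symm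
      have h5 : bt T w (actL T.x (s - pc π s)) =
          bt T w (actL T.x (s - pc π s) - pc π (actL T.x (s - pc π s))) +
          bt T w (pc π (actL T.x (s - pc π s))) := by
        rw [← bt_add_right, sub_add_cancel]
      rw [h2, h3, zero_add] at h5
      exact h5.symm
    rw [map_sub, map_sub, sub_eq_zero] at h1
    rw [h1]
    exact (hid _ (hW _ (hr s))).symm
  have hf : T.IsHodge (ff T π) := by
    rw [Pool.Agent.W101.PG.hk]
    intro L
    rw [ff_key T π T.x hx _ _ L (fun i => rfl) (fun i => rfl), hcomm, sub_self]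
  have hk := (hT Z hZ).2 _ _ hf
  have hZJ : ∀ J : Fin k → Fin n, actL Z (pc π (cx (sJ T J))) = pc π (actL Z (cx (sJ T J))) := by
    intro J
    funext K
    have h1 := hk (Fin.append J K)
    rw [ff_key T π Z hZ J K _ (fun i => Fin.append_left J K i) (fun i => Fin.append_right J K i)] at h1
    exact sub_eq_zero.1 h1
  have hall : ∀ s : V n k, actL Z (pc π s) = pc π (actL Z s) := by
    intro s
    have h1 : s = ∑ J, mp (fun _ => Qi T) s J • cx (sJ T J) := by
      have h2 : mp (fun _ => mC T.Q) (mp (fun _ => Qi T) s) = s := by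
        rw [mp_mp, Qi_mul, mp_one]
      conv_lhs => rw [← h2]
      funext K
      rw [mp_apply, Finset.sum_apply]
      refine sum_congr rfl fun J _ => ?_
      rw [Pi.smul_apply, smul_eq_mul, mul_comm]
      congr 1
      simp [cx, sJ, mC]
    rw [h1]
    simp only [map_sum, map_smul, hZJ]
  have h1 := hall w
  rw [hid w hw] at h1
  have h2 : act Z w = actL Z w := rfl
  rw [h2, h1]
  exact hr _

end

end Pool.Agent.W377.PG
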