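import Pool.Agent.W544.PG.Defs3

/-!
# Project PG (helper544), part G0: calculus of forms
-/

open Matrix Finset Module

namespace Pool.Agent.W377.PG

open Pool.Agent.W544.PG

noncomputable section

variable {n k : ℕ}

/-- complex forms -/
abbrev V (n k : ℕ) : Type := (Fin k → Fin n) → ℂ

/-- pull-back by different matrices in the different variables -/
def mp (P : Fin k → Matrix (Fin n) (Fin n) ℂ) : V n k →ₗ[ℂ] V n k where
  toFun s := fun J => ∑ K : Fin k → Fin n, (∏ j, P j (K j) (J j)) * s K
  map_add' s t := by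
    funext J
    simp only [Pi.add_apply, mul_add, sum_add_distrib]
  map_smul' c s := by
    funext J
    simp only [Pi.smul_apply, smul_eq_mul, RingHom.id_apply, mul_sum]
    exact sum_congr rfl fun K _ => by ring

lemma mp_apply (P : Fin k → Matrix (Fin n) (Fin n) ℂ) (s : V n k) (J : Fin k → Fin n) :
    mp P s J = ∑ K : Fin k → Fin n, (∏ j, P j (K j) (J j)) * s K := rfl

lemma mp_mp (P P' : Fin k → Matrix (Fin n) (Fin n) ℂ) (s : V n k) :
    mp P (mp P' s) = mp (fun j => P' j * P j) s := by
  funext J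
  simp only [mp_apply, mul_apply, Fintype.prod_sum, mul_sum, sum_mul]
  rw [sum_comm]
  refine sum_congr rfl fun L _ => sum_congr rfl fun K _ => ?_
  rw [prod_mul_distrib]
  ring

lemma mp_one (s : V n k) : mp (fun _ => (1 : Matrix (Fin n) (Fin n) ℂ)) s = s := by
  funext J
  rw [mp_apply, sum_eq_single J]
  · simp
  · intro K _ hK
    obtain ⟨j, hj⟩ := Function.ne_iff.1 hK
    rw [prod_eq_zero (mem_univ j), zero_mul]
    exact one_apply_ne hj
  · intro h
    exact absurd (mem_univ J) h

lemma mp_smul (c : Fin k → ℂ) (P : Fin k → Matrix (Fin n) (Fin n) ℂ) (s : V n k) :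
    mp (fun j => c j • P j) s = (∏ j, c j) • mp P s := by
  funext J
  simp only [mp_apply, Matrix.smul_apply, smul_eq_mul, prod_mul_distrib, Pi.smul_apply, mul_sum,
    mul_assoc]

lemma mp_sum {r : ℕ} (P : Fin k → Fin r → Matrix (Fin n) (Fin n) ℂ) (s : V n k) :
    mp (fun j => ∑ c, P j c) s = ∑ c : Fin k → Fin r, mp (fun j => P j (c j)) s := by
  funext J
  simp only [mp_apply, Matrix.sum_apply, Fintype.prod_sum, Finset.sum_apply, sum_mul]
  rw [sum_comm]

lemma mp_adj (P : Fin k → Matrix (Fin n) (Fin n) ℂ) (s t : V n k) :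
    ∑ J, t J * mp P s J = ∑ J, mp (fun j => (P j)ᵀ) t J * s J := by
  simp only [mp_apply, mul_sum, sum_mul, transpose_apply]
  rw [sum_comm]
  exact sum_congr rfl fun K _ => sum_congr rfl fun J _ => by ring

lemma prod_upd {ι : Type} (F : Fin k → ι → ℂ) (J : Fin k → ι) (j : Fin k) (l : ι) :
    ∏ i, F i (Function.update J j l i) = F j l * ∏ i ∈ univ.erase j, F i (J i) := by
  rw [← mul_prod_erase univ _ (mem_univ j), Function.update_self]
  congr 1
  refine prod_congr rfl fun i hi => ?_
  rw [Function.update_of_ne (ne_of_mem_erase hi)]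

/-- `act y` as a linear map -/
def actL (y : Matrix (Fin n) (Fin n) ℂ) : V n k →ₗ[ℂ] V n k where
  toFun s := act y s
  map_add' s t := by
    funext J
    simp only [act, Pi.add_apply, mul_add, sum_add_distrib]
  map_smul' c s := by
    funext J
    simp only [act, Pi.smul_apply, smul_eq_mul, RingHom.id_apply, mul_sum]
    exact sum_congr rfl fun K _ => sum_congr rfl fun l _ => by ring

lemma actL_apply (y : Matrix (Fin n) (Fin n) ℂ) (s : V n k) : actL y s = act y s := rfl

lemma act_mp (y : Matrix (Fin n) (Fin n) ℂ) (P : Fin k → Matrix (Fin n) (Fin n) ℂ) (s : V n k) :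
    actL y (mp P s) = ∑ j, mp (Function.update P j (P j * y)) s := by
  funext J
  rw [Finset.sum_apply, actL_apply]
  unfold act
  refine sum_congr rfl fun j _ => ?_
  simp only [mp_apply, mul_sum]
  rw [sum_comm]
  refine sum_congr rfl fun K _ => ?_
  have h1 : ∀ l, ∏ i, P i (K i) (Function.update J j l i) =
      P j (K j) l * ∏ i ∈ univ.erase j, P i (K i) (J i) :=
    fun l => prod_upd (fun i m => P i (K i) m) J j l
  have h2 : ∏ i, (Function.update P j (P j * y) i) (K i) (J i) =
      (P j * y) (K j) (J j) * ∏ i ∈ univ.erase j, P i (K i) (J i) :=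
    prod_upd (fun i (M : Matrix (Fin n) (Fin n) ℂ) => M (K i) (J i)) P j (P j * y)
  rw [h2, mul_apply, sum_mul, sum_mul]
  refine sum_congr rfl fun l _ => ?_
  rw [h1 l]
  ring

lemma act_eq (y : Matrix (Fin n) (Fin n) ℂ) (s : V n k) :
    actL y s = ∑ j, mp (Function.update (fun _ => 1) j y) s := by
  have h := act_mp y (fun _ => 1) s
  rw [mp_one] at h
  rw [h]
  refine sum_congr rfl fun j _ => ?_
  rw [one_mul]

/-- pull-back intertwines -/
lemma act_pull (P y z : Matrix (Fin n) (Fin n) ℂ) (h : P * y = z * P) (s : V n k) :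
    actL y (mp (fun _ => P) s) = mp (fun _ => P) (actL z s) := by
  rw [act_mp, act_eq z, map_sum]
  refine sum_congr rfl fun j _ => ?_
  rw [mp_mp]
  congr 2
  funext i
  by_cases hi : i = j
  · subst hi
    rw [Function.update_self, Function.update_self, h]
  · rw [Function.update_of_ne hi, Function.update_of_ne hi, one_mul]

lemma act_adj (y : Matrix (Fin n) (Fin n) ℂ) (s t : V n k) :
    ∑ J, t J * actL y s J = ∑ J, actL yᵀ t J * s J := by
  rw [act_eq, act_eq]
  simp only [Finset.sum_apply, mul_sum, sum_mul]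
  rw [sum_comm, sum_comm (γ := Fin k → Fin n)]
  refine sum_congr rfl fun j _ => ?_
  rw [mp_adj]
  have h : (fun i => (Function.update (fun _ => (1 : Matrix (Fin n) (Fin n) ℂ)) j y i)ᵀ) =
      Function.update (fun _ => 1) j yᵀ := by
    funext i
    by_cases hi : i = j
    · subst hi
      rw [Function.update_self, Function.update_self]
    · rw [Function.update_of_ne hi, Function.update_of_ne hi, transpose_one]
  rw [h]

/-! ### Eigenvectors in invariant subspaces -/

lemma eig_mem {E : Type} [AddCommGroup E] [Module ℂ E] (D : E →ₗ[ℂ] E) (W : Submodule ℂ E)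
    (hW : ∀ w ∈ W, D w ∈ W) (S : Finset ℕ) (μ : ℕ → ℂ) (hμ : Function.Injective μ) :
    ∀ w : ℕ → E, (∀ i, D (w i) = μ i • w i) → ∑ i ∈ S, w i ∈ W → ∀ i ∈ S, w i ∈ W := by
  classical
  induction S using Finset.induction_on with
  | empty => intro w _ _ i hi; simp at hi
  | insert a S ha ih =>
    intro w hw hs
    rw [sum_insert ha] at hs
    have h1 : D (w a + ∑ i ∈ S, w i) - μ a • (w a + ∑ i ∈ S, w i) ∈ W :=
      W.sub_mem (hW _ hs) (W.smul_mem _ hs)
    have h2 : D (w a + ∑ i ∈ S, w i) - μ a • (w a + ∑ i ∈ S, w i) =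
        ∑ i ∈ S, (μ i - μ a) • w i := by
      rw [map_add, map_sum, smul_add, hw a, smul_sum, add_sub_add_left_eq_sub, ← sum_sub_distrib]
      refine sum_congr rfl fun i _ => ?_
      rw [hw i, sub_smul]
    rw [h2] at h1
    have h3 := ih (fun i => (μ i - μ a) • w i) (fun i => by
      rw [map_smul, hw i, smul_comm]) h1
    have h4 : ∀ i ∈ S, w i ∈ W := by
      intro i hi
      have hne : μ i - μ a ≠ 0 := by
        intro h
        exact ha (hμ (sub_eq_zero.1 h) ▸ hi)
      have := W.smul_mem (μ i - μ a)⁻¹ (h3 i hi)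
      rwa [smul_smul, inv_mul_cancel₀ hne, one_smul] at this
    intro i hi
    rcases mem_insert.1 hi with h | h
    · rw [h]
      have h5 : ∑ i ∈ S, w i ∈ W := W.sum_mem h4
      have h6 := W.sub_mem hs h5
      rwa [add_sub_cancel_right] at h6
    · exact h4 i h

end

end Pool.Agent.W377.PG
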