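import Pool.Agent.W377.PG.Forms

/-!
# Project PG (helper544), part G0: positivity
-/

open Matrix Finset Module
open scoped ComplexOrder MatrixOrder

namespace Pool.Agent.W377.PG

open Pool.Agent.W544.PG

noncomputable section

variable {n k : ℕ}

lemma mC_mul (A B : Matrix (Fin n) (Fin n) ℚ) : mC (A * B) = mC A * mC B := by
  ext i j
  simp [mC, mul_apply]

lemma mC_one : mC (1 : Matrix (Fin n) (Fin n) ℚ) = 1 :=
  Matrix.map_one _ (by simp) (by simp)

lemma mC_transpose (A : Matrix (Fin n) (Fin n) ℚ) : (mC A)ᵀ = mC Aᵀ := rfl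

lemma mC_conjTranspose (A : Matrix (Fin n) (Fin n) ℚ) : (mC A)ᴴ = mC Aᵀ := by
  ext i j
  simp [mC, conjTranspose_apply]

/-- the Weil operator (up to sign) -/
def CC (T : HS n) : Matrix (Fin n) (Fin n) ℂ := (2 : ℂ) • (T.x * T.x) - 1

lemma H_eq (T : HS n) : T.H = mC T.Q * CC T := rfl

lemma CC_sq (T : HS n) : CC T * CC T = 1 := by
  have h : T.x * T.x * (T.x * T.x) = T.x * T.x := by
    rw [← mul_assoc, T.cube]
  unfold CC
  rw [sub_mul, mul_sub, mul_sub, smul_mul_smul_comm, h]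
  simp only [mul_one, one_mul]
  module

lemma xH (T : HS n) : T.xᴴ = -T.xᵀ := by
  have h := T.real
  ext i j
  have := congrFun (congrFun h j) i
  simpa [conjTranspose_apply] using this

lemma xTQ (T : HS n) : T.xᵀ * mC T.Q = -(mC T.Q * T.x) := eq_neg_of_add_eq_zero_left T.skew

lemma H_herm (T : HS n) : T.H.IsHermitian := by
  unfold IsHermitian
  rw [H_eq, conjTranspose_mul, mC_conjTranspose, T.symm]
  unfold CC
  rw [conjTranspose_sub, conjTranspose_smul, conjTranspose_mul, conjTranspose_one, xH,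
    neg_mul_neg, sub_mul, mul_sub, smul_mul_assoc, mul_smul_comm, mul_assoc, xTQ, mul_neg,
    ← mul_assoc, xTQ, neg_mul, neg_neg, mul_assoc]
  simp

lemma H_posDef (T : HS n) : T.H.PosDef := by
  refine PosDef.of_dotProduct_mulVec_pos (H_herm T) fun v hv => ?_
  have h1 := T.pos v hv
  have h2 : star (star v ⬝ᵥ (T.H *ᵥ v)) = star v ⬝ᵥ (T.H *ᵥ v) := by
    calc star (star v ⬝ᵥ (T.H *ᵥ v)) = star (T.H *ᵥ v) ⬝ᵥ v := (star_dotProduct _ _).symm
      _ = _ := by rw [star_mulVec, (H_herm T).eq, dotProduct_mulVec]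
  have h3 : (star v ⬝ᵥ (T.H *ᵥ v)).im = 0 := by
    have := congrArg Complex.im h2
    rw [Complex.star_def, Complex.conj_im] at this
    linarith
  rw [Complex.pos_iff]
  exact ⟨h1, h3.symm⟩

lemma exists_root (T : HS n) : ∃ B B' : Matrix (Fin n) (Fin n) ℂ, T.H * (B * Bᴴ) = 1 ∧ B * B' = 1 := by
  have hp := (H_posDef T).inv
  have h0 : (0 : Matrix (Fin n) (Fin n) ℂ) ≤ T.H⁻¹ := Matrix.nonneg_iff_posSemidef.2 hp.posSemidef
  have hs := CFC.sqrt_mul_sqrt_self T.H⁻¹ h0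
  have hh : (CFC.sqrt T.H⁻¹)ᴴ = CFC.sqrt T.H⁻¹ :=
    (Matrix.nonneg_iff_posSemidef.1 (CFC.sqrt_nonneg T.H⁻¹)).isHermitian
  have hdet : IsUnit T.H.det := (Matrix.isUnit_iff_isUnit_det _).1 (H_posDef T).isUnit
  have h1 : T.H * (CFC.sqrt T.H⁻¹ * CFC.sqrt T.H⁻¹) = 1 := by
    rw [hs, mul_nonsing_inv _ hdet]
  refine ⟨CFC.sqrt T.H⁻¹, CFC.sqrt T.H⁻¹ * T.H, by rw [hh]; exact h1, ?_⟩
  have h2 := mul_eq_one_comm.1 h1
  rwa [mul_assoc] at h2

/-- `mC Q` is invertible -/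
lemma Q_inv (T : HS n) : T.Q⁻¹ * T.Q = 1 := by
  obtain ⟨B, B', h1, h2⟩ := exists_root T
  rw [H_eq, mul_assoc] at h1
  have h3 : (mC T.Q).det ≠ 0 := by
    intro h
    have := congrArg det h1
    rw [det_mul, h, zero_mul, det_one] at this
    exact zero_ne_one this
  have h4 : T.Q.det ≠ 0 := by
    intro h
    apply h3
    have h5 : (mC T.Q).det = ((T.Q.det : ℚ) : ℂ) := by
      have := (RingHom.map_det (Rat.castHom ℂ) T.Q)
      simpa [mC] using this.symm
    rw [h5, h, Rat.cast_zero]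
  exact nonsing_inv_mul _ (isUnit_iff_ne_zero.2 h4)

/-- inverse of the intersection form -/
def Qi (T : HS n) : Matrix (Fin n) (Fin n) ℂ := mC T.Q⁻¹

lemma Qi_mul (T : HS n) : Qi T * mC T.Q = 1 := by
  unfold Qi
  rw [← mC_mul, Q_inv, mC_one]

lemma mul_Qi (T : HS n) : mC T.Q * Qi T = 1 := mul_eq_one_comm.1 (Qi_mul T)

lemma Qi_transpose (T : HS n) : (Qi T)ᵀ = Qi T := by
  unfold Qi
  rw [mC_transpose, transpose_nonsing_inv, T.symm]

lemma Qi_skew (T : HS n) (Z : Matrix (Fin n) (Fin n) ℂ) (hZ : Zᵀ * mC T.Q + mC T.Q * Z = 0) :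
    Qi T * Zᵀ = -(Z * Qi T) := by
  have h1 : Qi T * (Zᵀ * mC T.Q + mC T.Q * Z) * Qi T = 0 := by rw [hZ, mul_zero, zero_mul]
  have h2 : Qi T * (Zᵀ * mC T.Q + mC T.Q * Z) * Qi T = Qi T * Zᵀ + Z * Qi T := by
    rw [mul_add, add_mul, ← mul_assoc, mul_assoc (Qi T * Zᵀ), mul_Qi, mul_one, ← mul_assoc, Qi_mul,
      one_mul]
  rw [h2] at h1
  exact eq_neg_of_add_eq_zero_left h1

/-- the bilinear form on forms -/
def bt (T : HS n) (s t : V n k) : ℂ := ∑ J, s J * mp (fun _ => Qi T) t J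

lemma bt_symm (T : HS n) (s t : V n k) : bt T s t = bt T t s := by
  unfold bt
  rw [mp_adj]
  simp only [Qi_transpose]
  exact sum_congr rfl fun J _ => mul_comm _ _

lemma bt_act (T : HS n) (Z : Matrix (Fin n) (Fin n) ℂ) (hZ : Zᵀ * mC T.Q + mC T.Q * Z = 0)
    (s t : V n k) : bt T (actL Z s) t = -bt T s (actL Z t) := by
  have h := act_pull (Qi T) (-Zᵀ) Z (by rw [mul_neg, Qi_skew T Z hZ, neg_neg]) t
  have h2 : actL (-Zᵀ) (mp (fun _ => Qi T) t) = -actL Zᵀ (mp (fun _ => Qi T) t) := by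
    funext J
    simp [actL_apply, act]
  unfold bt
  rw [← h, h2]
  simp only [Pi.neg_apply, mul_neg, sum_neg_distrib, neg_neg]
  have h3 := act_adj Z s (mp (fun _ => Qi T) t)
  rw [sum_congr rfl fun J _ => mul_comm (actL Z s J) (mp (fun _ => Qi T) t J), h3]
  exact sum_congr rfl fun J _ => mul_comm _ _

/-- complex conjugation of forms -/
def cj (s : V n k) : V n k := fun J => (starRingEnd ℂ) (s J)

lemma cj_mp (P : Fin k → Matrix (Fin n) (Fin n) ℂ) (s : V n k) :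
    cj (mp P s) = mp (fun j => (P j).map (starRingEnd ℂ)) (cj s) := by
  funext J
  simp [cj, mp_apply, map_sum, map_prod]

lemma cj_cj (s : V n k) : cj (cj s) = s := by
  funext J
  simp [cj]

lemma bt_cj (T : HS n) (s t : V n k) : (starRingEnd ℂ) (bt T s t) = bt T (cj s) (cj t) := by
  have h : (Qi T).map (starRingEnd ℂ) = Qi T := by
    ext i j
    simp [Qi, mC]
  have h2 := cj_mp (fun _ => Qi T) t
  rw [h] at h2
  unfold bt
  rw [← h2, map_sum]
  refine sum_congr rfl fun J _ => ?_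
  rw [map_mul]
  rfl

/-- positivity -/
lemma bt_pos (T : HS n) (s : V n k) (h : bt T (cj s) (mp (fun _ => CC T) s) = 0) : s = 0 := by
  obtain ⟨B, B', h1, h2⟩ := exists_root T
  have hM : CC T * Qi T = B * Bᴴ := by
    have h3 : T.H * (CC T * Qi T) = 1 := by
      rw [H_eq, mul_assoc, ← mul_assoc (CC T), CC_sq, one_mul, mul_Qi]
    have h4 := mul_eq_one_comm.1 h1
    calc CC T * Qi T = (B * Bᴴ * T.H) * (CC T * Qi T) := by rw [h4, one_mul]
      _ = B * Bᴴ := by rw [mul_assoc, h3, mul_one]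
  unfold bt at h
  rw [mp_mp, hM] at h
  have h5 : mp (fun _ : Fin k => B * Bᴴ) s = mp (fun _ => Bᴴ) (mp (fun _ => B) s) := by rw [mp_mp]
  rw [h5, mp_adj] at h
  have h6 : mp (fun _ : Fin k => (Bᴴ)ᵀ) (cj s) = cj (mp (fun _ => B) s) := by
    rw [cj_mp]
    rfl
  rw [h6] at h
  have h7 : ∀ J, mp (fun _ : Fin k => B) s J = 0 := by
    have h8 : ((∑ J, Complex.normSq (mp (fun _ : Fin k => B) s J) : ℝ) : ℂ) = 0 := by
      rw [← h]
      push_cast
      refine sum_congr rfl fun J _ => ?_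
      rw [Complex.normSq_eq_conj_mul_self]
      rfl
    have h9 : ∑ J, Complex.normSq (mp (fun _ : Fin k => B) s J) = 0 := by exact_mod_cast h8
    intro J
    have := (sum_eq_zero_iff_of_nonneg fun J _ => Complex.normSq_nonneg _).1 h9 J (mem_univ J)
    exact Complex.normSq_eq_zero.1 this
  have h8 : mp (fun _ : Fin k => B') (mp (fun _ => B) s) = s := by
    rw [mp_mp, h2, mp_one]
  rw [← h8, show mp (fun _ : Fin k => B) s = 0 from funext h7, map_zero]

end

end Pool.Agent.W377.PG
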